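import Pool.Agent.Q229.QP4.Final
import Pool.Agent.Q224.QP4.MemStm
import Pool.Agent.Q149.QP4.CompleteStm
import Pool.Agent.Q223.QP4.ElemStm
import Pool.Agent.Q149.QP4.CopyStm
import Pool.Agent.Q111.QP4.PolyStm

set_option autoImplicit false

/-!
# Recognising outer `k`-quasi-planar graphs is NP-complete for every fixed `k > 3`

A graph is outer `k`-quasi-planar if its vertices can be placed on a circle so that no `k` edges
cross pairwise. For every fixed `k > 3` the recognition problem is NP-complete, and a
polynomial-time algorithm for it exists if and only if `P = NP`.

The reduction is from monotone not-all-equal satisfiability. The graph consists of a hub of `k - 1`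
vertices and many copies of a gadget. A set `F` of vertices of each copy is joined to the hub
completely. In a drawing without `k` pairwise crossing edges some copy lies between two consecutive
vertices of the hub; then no edge of the copy passes over `k - 1` vertices of `F` and no two crossing
edges of the copy pass over `k - 2` common vertices of `F`. The two ends of a copy are
`(k - 1)`-st powers of long paths in `F`, and between them there are `M + 1` levels of `N` vertices
each and `M` blocks of `k - 2` vertices of `F`. Counting the vertices of `F` shows that exactly
`k - 2` vertices of `F` lie between any two consecutive levels, so each level is the mirror image of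
the previous one and the same order of the `N` chains is seen at all levels. Two disjoint edges inside
a level test the order: together with the two bus edges and the `k - 4` vertices of the next block
that are joined to the whole level they make `k` pairwise crossing edges if they cross and at least
`k - 2` chains are between their inner ends.
-/

namespace Pool.Agent.Results.MP_3c8dce_lc.NPCompleteAllK

open Pool.Agent.NPC Pool.Agent.NPC.H634R2

/-- The edges `e` and `f` cross when the vertices are placed on a circle, in the order given by
`pos`: they have four different endpoints, which alternate. -/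
def Crosses (pos : ℕ → ℕ) (e f : ℕ × ℕ) : Prop :=
  (min (pos e.1) (pos e.2) < min (pos f.1) (pos f.2) ∧
    min (pos f.1) (pos f.2) < max (pos e.1) (pos e.2) ∧
    max (pos e.1) (pos e.2) < max (pos f.1) (pos f.2)) ∨
  (min (pos f.1) (pos f.2) < min (pos e.1) (pos e.2) ∧
    min (pos e.1) (pos e.2) < max (pos f.1) (pos f.2) ∧
    max (pos f.1) (pos f.2) < max (pos e.1) (pos e.2))

/-- The graph with the vertices `V` and the edges `E` is outer `k`-quasi-planar: its vertices have
an order on a circle for which no `k` edges cross pairwise. -/
def OuterQuasiPlanar (k : ℕ) (V : List ℕ) (E : List (ℕ × ℕ)) : Prop :=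
  ∃ pos : ℕ → ℕ, (∀ u ∈ V, ∀ v ∈ V, pos u = pos v → u = v) ∧
    ¬ ∃ S : Finset (ℕ × ℕ), S.card = k ∧ (∀ e ∈ S, e ∈ E) ∧
      ∀ e ∈ S, ∀ f ∈ S, e ≠ f → Crosses pos e f

/-- The recognition problem: the input is a finite simple graph. -/
def Recognition (k : ℕ) (G : List ℕ × List (ℕ × ℕ)) : Prop :=
  IsGraph G.1 G.2 ∧ OuterQuasiPlanar k G.1 G.2

/-- **For every fixed `k > 3` it is NP-complete to decide whether a graph is outer
`k`-quasi-planar**, and a polynomial-time algorithm which decides this for all graphs exists if
and only if `P = NP`. -/
theorem result (k : ℕ) (hk : 3 < k) :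
    (InNPP (Recognition k) ∧ NPHardP (Recognition k)) ∧
    ((∃ F : List Bool → List Bool, PolyTime F ∧
        ∀ (V : List ℕ) (E : List (ℕ × ℕ)), IsGraph V E →
          (F (bits (V, E)) = [true] ↔ OuterQuasiPlanar k V E)) ↔
      ∀ L : Set (List Bool), InNP L → InP L) := by
  obtain ⟨h1, h2, h3⟩ := Pool.Agent.Q229.QP4.final
    Pool.Agent.Q149.QP4.completeStm Pool.Agent.Q223.QP4.elem Pool.Agent.Q149.QP4.copyStm
    Pool.Agent.Q111.QP4.t_PolyStm Pool.Agent.Q224.QP4.mem (k := k) hk
  exact ⟨⟨h1, h2⟩, h3⟩

end Pool.Agent.Results.MP_3c8dce_lc.NPCompleteAllK
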